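import Mathlib
import Pool.Agent.Q304.WB.Main

/-!
# MP_51339e_an, Q1: weak Baire measurability of the norm does not pass from a dense subspace

There are a real Banach space `X` and a norm dense linear subspace `A` such that the norm is
measurable on `A` for the trace of the Baire sigma-algebra of the weak topology of `X`, while the
norm of `X` is not measurable for this sigma-algebra.
-/

set_option autoImplicit false

open MeasureTheory

namespace Pool.Agent.Results.MP_51339e_an.DenseSubspace

/-- `Ba(X, w)`: the smallest sigma-algebra on `X` for which every weakly continuous function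
`X → ℝ` is (Borel) measurable. -/
def weakBaire (X : Type*) [NormedAddCommGroup X] [NormedSpace ℝ X] : MeasurableSpace X :=
  ⨆ (F : X → ℝ) (_ : Continuous fun x : WeakSpace ℝ X => F ((toWeakSpace ℝ X).symm x)),
    MeasurableSpace.comap F (borel ℝ)

theorem result :
    ∃ (X : Type) (_ : NormedAddCommGroup X) (_ : NormedSpace ℝ X) (_ : CompleteSpace X)
      (A : Submodule ℝ X), Dense (A : Set X) ∧
      Measurable[MeasurableSpace.comap Subtype.val (weakBaire X), borel ℝ]
        (fun a : A => ‖(a : X)‖) ∧
      ¬ Measurable[weakBaire X, borel ℝ] (fun x : X => ‖x‖) :=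
  ⟨Pool.Agent.Q304.WB.X, inferInstance, inferInstance, inferInstance, Pool.Agent.Q304.WB.A,
    Pool.Agent.Q304.WB.dense_A, Pool.Agent.Q304.WB.measurable_A,
    Pool.Agent.Q304.WB.not_measurable_norm⟩

end Pool.Agent.Results.MP_51339e_an.DenseSubspace
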